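import Mathlib
import Pool.Agent.Lib.MP_2ce84e_co.Defs
import Pool.Agent.Lib.MP_2ce84e_co.Values
import Pool.Agent.Lib.MP_2ce84e_co.Deg.Degree
import Pool.Agent.Lib.MP_2ce84e_co.Deg.Graphs

/-!
# The delayed game domatic number of a disjoint union is not a function of the four numbers

`K₃` and `K₃,₃` have the same game domatic numbers `(γ_A, γ_B) = (2, 2)`, but
`γ_B(K₂ ∪ K₃) = 1` and `γ_B(K₂ ∪ K₃,₃) = 2`.

It does not help to know also the degree sequence, and to consider only connected graphs and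
the union with a triangle: the connected graphs `gG` and `gH` on 10 vertices have the same degrees and
`(γ_A, γ_B) = (2, 2)`, but `γ_B(gG ∪ K₃) = 1` and `γ_B(gH ∪ K₃) = 2`.
-/

open Pool.Agent.Lib.MP_2ce84e_co

namespace Pool.Agent.Results.MP_2ce84e_co.GameB

/-- There is no function expressing `γ_B` of a disjoint union of two finite nonempty graphs
through the numbers `γ_A` and `γ_B` of the two graphs. For connected graphs `G`, the number
`γ_B(G ∪ K₃)` is not a function of `γ_A(G)`, `γ_B(G)` and the multiset of the degrees of `G`. -/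
theorem result :
    (¬ ∃ f : ℕ → ℕ → ℕ → ℕ → ℕ, ∀ (V W : Type) [Finite V] [Finite W] [Nonempty V]
      [Nonempty W] (G : SimpleGraph V) (H : SimpleGraph W),
      gammaB (G ⊕g H) = f (gammaA G) (gammaB G) (gammaA H) (gammaB H)) ∧
    (¬ ∃ f : ℕ → ℕ → Multiset ℕ → ℕ, ∀ (V : Type) [Fintype V] (G : SimpleGraph V), G.Connected →
      gammaB (G ⊕g (⊤ : SimpleGraph (Fin 3))) = f (gammaA G) (gammaB G) (degreeMultiset G)) := by
  constructor
  · rintro ⟨f, hf⟩
    have h1 := hf _ _ K2 K3
    have h2 := hf _ _ K2 K33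
    rw [gammaB_K2K3, gammaA_K3, gammaB_K3] at h1
    rw [gammaB_K2K33, gammaA_K33, gammaB_K33] at h2
    omega
  · rintro ⟨f, hf⟩
    have h1 := hf _ gG conn_G
    have h2 := hf _ gH conn_H
    rw [gammaB_GK, gammaA_G, gammaB_G, deg_GH] at h1
    rw [gammaB_HK, gammaA_H, gammaB_H] at h2
    omega

end Pool.Agent.Results.MP_2ce84e_co.GameB
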